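import Pool.Agent.Work.MP_69fea5_lc.PD.I_DYN

set_option autoImplicit false

/-!
# Auslander-Ellis: a minimal subshift in the limit set of `c` contains a point proximal to `c`
-/

namespace Pool.Agent.Work.MP_69fea5_lc.PD

open Filter Topology

attribute [local instance] Ultrafilter.add Ultrafilter.addSemigroup

variable {k : ℕ}

theorem exists_lm_of_limit {c z : ℕ → Fin k}
    (h : ∀ l N, ∃ x, N ≤ x ∧ ∀ i < l, c (x + i) = z i) :
    ∃ p : Ultrafilter ℕ, (∀ N, ∀ᶠ x in (p : Filter ℕ), N ≤ x) ∧ lm p c = z := by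
  let G : ℕ → Set ℕ := fun n => {x | n ≤ x ∧ ∀ i < n, c (x + i) = z i}
  have hG : Antitone G := by
    intro a b hab x hx
    exact ⟨hab.trans hx.1, fun i hi => hx.2 i (hi.trans_le hab)⟩
  have hne : (⨅ n, 𝓟 (G n)).NeBot := by
    refine iInf_neBot_of_directed' ?_ fun n => principal_neBot_iff.2 (h n n)
    intro a b
    exact ⟨max a b, principal_mono.2 (hG (le_max_left _ _)),
      principal_mono.2 (hG (le_max_right _ _))⟩
  have h1 : ∀ n, G n ∈ Ultrafilter.of (⨅ n, 𝓟 (G n)) := fun n =>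
    Ultrafilter.of_le _ (mem_iInf_of_mem n (mem_principal_self _))
  refine ⟨Ultrafilter.of (⨅ n, 𝓟 (G n)), fun n => ?_, funext fun i => ?_⟩
  · exact mem_of_superset (h1 n) fun x hx => hx.1
  · rw [lm_eq_iff]
    exact mem_of_superset (h1 (i + 1)) fun x hx => hx.2 i (Nat.lt_succ_self i)

theorem AE_pf {c : ℕ → Fin k} {M : Set (ℕ → Fin k)} (hne : M.Nonempty) (hM : IsClosed M)
    (hT : ∀ z ∈ M, (fun n => z (n + 1)) ∈ M)
    (hω : ∀ z ∈ M, ∀ l N, ∃ x, N ≤ x ∧ ∀ i < l, c (x + i) = z i) :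
    ∃ y ∈ M, Proximal y c := by
  obtain ⟨z, hz⟩ := hne
  obtain ⟨p0, hp0, hp0z⟩ := exists_lm_of_limit (hω z hz)
  let S : Set (Ultrafilter ℕ) := {p | lm p c ∈ M}
  have hSc : IsClosed S := hM.preimage (continuous_lm c)
  obtain ⟨e, he, hee⟩ := exists_idempotent_in_compact_add_subsemigroup
    (fun r : Ultrafilter ℕ => Ultrafilter.continuous_add_left r) S
    ⟨p0, by show lm p0 c ∈ M; rw [hp0z]; exact hz⟩ hSc.isCompact (by
      intro p _ q hq
      show lm (p + q) c ∈ M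
      rw [lm_add]
      exact lm_mem hM hT p hq)
  refine ⟨lm e c, he, fun l => ?_⟩
  have h1 : lm e (lm e c) = lm e c := by rw [← lm_add, hee]
  obtain ⟨x, hx, hx'⟩ := ((lm_spec_lt e c l).and (lm_spec_lt e (lm e c) l)).exists
  exact ⟨x, fun i hi => by rw [hx i hi, hx' i hi, h1]⟩

end Pool.Agent.Work.MP_69fea5_lc.PD
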