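import Pool.Agent.Work.MP_69fea5_lc.Comp

set_option autoImplicit false

/-!
# A calculus of relations decided by a finite part of an oracle
-/

namespace Pool.Agent.Work.MP_69fea5_lc.PD

open Pool.Agent.Work.MP_69fea5_lc

variable {g : ℕ → ℕ} {α β : Type*} [Primcodable α] [Primcodable β]

/-- `p a` is decided by a primitive recursive function from the values of `g` below a primitive
recursive bound. -/
def RP (g : ℕ → ℕ) {α : Type*} [Primcodable α] (p : α → Prop) : Prop :=
  ∃ (h : α → ℕ) (Φ : α → List ℕ → Prop), Primrec h ∧ PrimrecRel Φ ∧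
    ∀ a m, h a ≤ m → (Φ a (pre g m) ↔ p a)

theorem RP.congr {p q : α → Prop} (hp : RP g p) (h : ∀ a, p a ↔ q a) : RP g q := by
  have : p = q := funext fun n => propext (h n)
  exact this ▸ hp

theorem RP.prim {p : α → Prop} (hp : PrimrecPred p) : RP g p :=
  ⟨fun _ => 0, fun a _ => p a, Primrec.const 0, hp.comp Primrec.fst, fun _ _ _ => Iff.rfl⟩

theorem RP.not {p : α → Prop} (hp : RP g p) : RP g fun a => ¬ p a := by
  obtain ⟨h, Φ, hh, hΦ, H⟩ := hp
  exact ⟨h, fun a l => ¬ Φ a l, hh, PrimrecPred.not hΦ, fun a m hm => not_congr (H a m hm)⟩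

theorem RP.and {p q : α → Prop} (hp : RP g p) (hq : RP g q) : RP g fun a => p a ∧ q a := by
  obtain ⟨h, Φ, hh, hΦ, H⟩ := hp
  obtain ⟨h', Ψ, hh', hΨ, H'⟩ := hq
  refine ⟨fun a => max (h a) (h' a), fun a l => Φ a l ∧ Ψ a l, Primrec.nat_max.comp hh hh',
    PrimrecPred.and hΦ hΨ, fun a m hm => and_congr (H a m ?_) (H' a m ?_)⟩
  · exact le_trans (le_max_left _ _) hm
  · exact le_trans (le_max_right _ _) hm

theorem RP.or {p q : α → Prop} (hp : RP g p) (hq : RP g q) : RP g fun a => p a ∨ q a :=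
  (hp.not.and hq.not).not.congr fun a => by tauto

theorem RP.imp {p q : α → Prop} (hp : RP g p) (hq : RP g q) : RP g fun a => p a → q a :=
  (hp.and hq.not).not.congr fun a => by tauto

theorem RP.subst {p : β → Prop} (hp : RP g p) {f : α → β} (hf : Primrec f) :
    RP g fun a => p (f a) := by
  obtain ⟨h, Φ, hh, hΦ, H⟩ := hp
  exact ⟨fun a => h (f a), fun a l => Φ (f a) l, hh.comp hf,
    hΦ.comp (hf.comp Primrec.fst) Primrec.snd, fun a m hm => H (f a) m hm⟩

/-- the maximum of `f (i, a)` for `i < n` -/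
def msup (f : ℕ × α → ℕ) (n : ℕ) (a : α) : ℕ :=
  Nat.rec 0 (fun i r => max r (f (i, a))) n

omit [Primcodable α] in
theorem le_msup (f : ℕ × α → ℕ) (n : ℕ) (a : α) {i : ℕ} (hi : i < n) : f (i, a) ≤ msup f n a := by
  induction n with
  | zero => omega
  | succ n ih =>
    show f (i, a) ≤ max (msup f n a) (f (n, a))
    by_cases h : i = n
    · subst h; exact le_max_right _ _
    · exact le_trans (ih (by omega)) (le_max_left _ _)

theorem msup_prim {f : ℕ × α → ℕ} (hf : Primrec f) {b : α → ℕ} (hb : Primrec b) :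
    Primrec fun a => msup f (b a) a := by
  refine Primrec.nat_rec' (f := b) (g := fun _ => 0) (h := fun a p => max p.2 (f (p.1, a))) hb
    (Primrec.const 0) ?_
  exact Primrec.nat_max.comp (Primrec.snd.comp Primrec.snd)
    (hf.comp (Primrec.pair (Primrec.fst.comp Primrec.snd) Primrec.fst))

theorem RP.ball {p : ℕ → α → Prop} (hp : RP g fun x : ℕ × α => p x.1 x.2) {b : α → ℕ}
    (hb : Primrec b) : RP g fun a => ∀ i < b a, p i a := by
  obtain ⟨h, Φ, hh, hΦ, H⟩ := hp
  have h1 : PrimrecRel fun (i : ℕ) (x : α × List ℕ) => Φ (i, x.1) x.2 :=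
    hΦ.comp (Primrec.pair Primrec.fst (Primrec.fst.comp Primrec.snd))
      (Primrec.snd.comp Primrec.snd)
  have h2 : PrimrecPred fun x : α × List ℕ => ∀ i < b x.1, Φ (i, x.1) x.2 :=
    (h1.forall_mem_list.comp (Primrec.list_range.comp (hb.comp Primrec.fst)) Primrec.id).of_eq
      fun x => by simp
  refine ⟨fun a => msup h (b a) a, fun a l => ∀ i < b a, Φ (i, a) l, msup_prim hh hb, h2,
    fun a m hm => ?_⟩
  exact forall_congr' fun i => forall_congr' fun hi =>
    H (i, a) m (le_trans (le_msup h (b a) a hi) hm)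

theorem RP.bex {p : ℕ → α → Prop} (hp : RP g fun x : ℕ × α => p x.1 x.2) {b : α → ℕ}
    (hb : Primrec b) : RP g fun a => ∃ i < b a, p i a :=
  (RP.ball (p := fun i a => ¬ p i a) hp.not hb).not.congr fun a => by simp

theorem RP.oracle {q : α → ℕ → Prop} (hq : PrimrecRel q) {f : α → ℕ} (hf : Primrec f) :
    RP g fun a => q a (g (f a)) := by
  refine ⟨fun a => f a + 1, fun a l => q a (l.getD (f a) 0), Primrec.succ.comp hf,
    hq.comp Primrec.fst ((Primrec.list_getD 0).comp Primrec.snd (hf.comp Primrec.fst)),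
    fun a m hm => ?_⟩
  have h1 : f a + 1 ≤ m := hm
  simp only [pre_getD g m (f a) (by omega)]

/-- The characteristic function of a set. -/
theorem RP.recNat {p : ℕ → Prop} (hp : RP g p) {O : Set (ℕ →. ℕ)}
    (hg : Nat.RecursiveIn O (fun n => Part.some (g n))) :
    Nat.RecursiveIn O (charFn {n | p n}) := by
  classical
  obtain ⟨h, Φ, hh, hΦ, H⟩ := hp
  let A : ℕ → ℕ := fun p => if Φ p.unpair.2
    ((Encodable.decode (α := List ℕ) p.unpair.1).getD []) then 1 else 0
  have hA : Computable A := by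
    apply Primrec.to_comp
    refine Primrec.ite ?_ (Primrec.const 1) (Primrec.const 0)
    exact hΦ.comp (Primrec.snd.comp Primrec.unpair)
      (Primrec.option_getD.comp (Primrec.decode.comp (Primrec.fst.comp Primrec.unpair))
        (Primrec.const []))
  refine (comp_tot (comp_of hA) (pair_tot (comp_tot (pre_rec hg) (comp_of hh.to_comp))
    (comp_of Computable.id))).of_eq ?_
  intro n
  simp only [A, charFn, Nat.unpair_pair, Encodable.encodek, Option.getD_some, id,
    Set.mem_ofPred_eq, H n (h n) (le_refl _)]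

/-- A simple recursion. -/
theorem rec_iter {O : Set (ℕ →. ℕ)} {K : ℕ → ℕ → Prop} [∀ s n, Decidable (K s n)]
    (hK : Nat.RecursiveIn O (charFn {p | K p.unpair.1 p.unpair.2})) {s : ℕ → ℕ}
    (h0 : s 0 = 0) (hs : ∀ n, s (n + 1) = if K (s n) n then s n + n else s n) :
    Nat.RecursiveIn O (fun n => Part.some (s n)) := by
  classical
  let χ : ℕ → ℕ := fun p => if K p.unpair.1 p.unpair.2 then 1 else 0
  have hχ : Nat.RecursiveIn O (fun n => Part.some (χ n)) := hK.of_eq fun n => by
    simp [charFn, χ]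
  let A : ℕ → ℕ := fun p => p.unpair.1 + p.unpair.2.unpair.1 * p.unpair.2.unpair.2
  have hA : Computable A := by
    apply Primrec.to_comp
    refine Primrec.nat_add.comp (Primrec.fst.comp Primrec.unpair) (Primrec.nat_mul.comp ?_ ?_)
    · exact Primrec.fst.comp (Primrec.unpair.comp (Primrec.snd.comp Primrec.unpair))
    · exact Primrec.snd.comp (Primrec.unpair.comp (Primrec.snd.comp Primrec.unpair))
  have hy : Computable (fun p : ℕ => p.unpair.2.unpair.1) :=
    (Primrec.fst.comp (Primrec.unpair.comp (Primrec.snd.comp Primrec.unpair))).to_comp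
  have hi : Computable (fun p : ℕ => p.unpair.2.unpair.2) :=
    (Primrec.snd.comp (Primrec.unpair.comp (Primrec.snd.comp Primrec.unpair))).to_comp
  have hstep : Nat.RecursiveIn O (fun p : ℕ => Part.some
      (A (Nat.pair p.unpair.2.unpair.2 (Nat.pair p.unpair.2.unpair.1
        (χ (Nat.pair p.unpair.2.unpair.2 p.unpair.2.unpair.1)))))) :=
    comp_tot (comp_of hA) (pair_tot (comp_of hi) (pair_tot (comp_of hy)
      (comp_tot hχ (pair_tot (comp_of hi) (comp_of hy)))))
  have hbase : Nat.RecursiveIn O (fun _ : ℕ => Part.some 0) := comp_of (Computable.const _)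
  have hp := Nat.RecursiveIn.prec hbase hstep
  have hq : Nat.RecursiveIn O (fun n : ℕ => Part.some (Nat.pair 0 n)) :=
    comp_of (Primrec₂.natPair.comp (Primrec.const 0) Primrec.id).to_comp
  refine (Nat.RecursiveIn.comp hp hq).of_eq ?_
  intro n
  simp only [Part.bind_eq_bind, Part.bind_some, Nat.unpair_pair]
  induction n with
  | zero => simp [h0]
  | succ n ih =>
    simp only [ih, Part.bind_some]
    congr 1
    rw [hs]
    simp only [A, χ, Nat.unpair_pair]
    split_ifs with h
    · ring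
    · ring

theorem rec_iter_set {O : Set (ℕ →. ℕ)} {K : ℕ → ℕ → Prop} [∀ s n, Decidable (K s n)]
    (hK : Nat.RecursiveIn O (charFn {p | K p.unpair.1 p.unpair.2})) {s : ℕ → ℕ}
    (h0 : s 0 = 0) (hs : ∀ n, s (n + 1) = if K (s n) n then s n + n else s n) :
    Nat.RecursiveIn O (charFn {n | K (s n) n}) := by
  classical
  let χ : ℕ → ℕ := fun p => if K p.unpair.1 p.unpair.2 then 1 else 0
  have hχ : Nat.RecursiveIn O (fun n => Part.some (χ n)) := hK.of_eq fun n => by
    simp [charFn, χ]
  refine (comp_tot hχ (pair_tot (rec_iter hK h0 hs) (comp_of Computable.id))).of_eq ?_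
  intro n
  simp [charFn, χ]

end Pool.Agent.Work.MP_69fea5_lc.PD
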