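import Pool.Agent.Work.MP_69fea5_lc.PD.Defs

set_option autoImplicit false

/-!
# Combinatorial part of Theorem PD
-/

namespace Pool.Agent.Work.MP_69fea5_lc.PD

variable {k : ℕ}

/-! ### The set `F*` of good points and its lexicographic minimum -/

/-- every point of `M` in the cylinder of length `h m` of `y` meets `c` in the cylinder of length `m`
of `y`, in a bounded time after `N` -/
def Gd (c : ℕ → Fin k) (M : Set (ℕ → Fin k)) (h : ℕ → ℕ) (y : ℕ → Fin k) (m : ℕ) : Prop :=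
  ∀ N, ∃ B, h m ≤ B ∧ ∀ z ∈ M, (∀ i < h m, z i = y i) →
    ∃ x, N ≤ x ∧ x + m ≤ B ∧ (∀ i < m, c (x + i) = y i) ∧ ∀ i < m, z (x + i) = y i

theorem Gd_congr {c : ℕ → Fin k} {M : Set (ℕ → Fin k)} {h : ℕ → ℕ} (hm : ∀ m, m ≤ h m)
    {y y' : ℕ → Fin k} {m : ℕ} (hyy : ∀ i < h m, y i = y' i) (hy : Gd c M h y m) :
    Gd c M h y' m := by
  intro N
  obtain ⟨B, hB, H⟩ := hy N
  have hm' := hm m
  refine ⟨B, hB, fun z hz hzy => ?_⟩
  obtain ⟨x, h1, h2, h3, h4⟩ := H z hz fun i hi => (hzy i hi).trans (hyy i hi).symm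
  exact ⟨x, h1, h2, fun i hi => (h3 i hi).trans (hyy i (by omega)),
    fun i hi => (h4 i hi).trans (hyy i (by omega))⟩

/-- the good points -/
def FS (c : ℕ → Fin k) (M : Set (ℕ → Fin k)) (h : ℕ → ℕ) : Set (ℕ → Fin k) :=
  {y | y ∈ M ∧ ∀ m, Gd c M h y m}

/-- the hypothesis with a modulus -/
def HypM (c : ℕ → Fin k) (M : Set (ℕ → Fin k)) (h : ℕ → ℕ) (y : ℕ → Fin k) : Prop :=
  ∀ m, ∀ z ∈ M, (∀ i < h m, z i = y i) →
    ∀ N, ∃ x, N ≤ x ∧ (∀ i < m, c (x + i) = y i) ∧ ∀ i < m, z (x + i) = y i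

theorem HypM_of_HypH {c : ℕ → Fin k} {M : Set (ℕ → Fin k)} {y : ℕ → Fin k} (H : HypH c M y) :
    HypM c M id y := by
  intro m z hz hzy N
  obtain ⟨x, h1, h2, h3⟩ := H z hz m N
  exact ⟨x, h1, h2, fun i hi => (h3 i hi).trans (hzy i hi)⟩

theorem Proximal_ge {y c : ℕ → Fin k} (h : Proximal y c) (l N : ℕ) :
    ∃ x, N ≤ x ∧ ∀ i < l, y (x + i) = c (x + i) := by
  obtain ⟨x, hx⟩ := h (N + l)
  refine ⟨x + N, by omega, fun i hi => ?_⟩
  have := hx (N + i) (by omega)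
  rwa [← Nat.add_assoc] at this

/-- If `y` is proximal to `c` and every point `z` of `M` that agrees with `y` below `h m` returns
together with `y` to the cylinder of length `m` of `y` with bounded gaps, then `HypM` holds. -/
theorem HypM_of_syndetic {c : ℕ → Fin k} {M : Set (ℕ → Fin k)} {h : ℕ → ℕ} {y : ℕ → Fin k}
    (hp : Proximal y c)
    (hs : ∀ m, ∀ z ∈ M, (∀ i < h m, z i = y i) → ∃ g, ∀ t, ∃ x, t ≤ x ∧ x < t + g ∧
      ∀ i < m, y (x + i) = y i ∧ z (x + i) = y i) : HypM c M h y := by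
  intro m z hz hzy N
  obtain ⟨g, hg⟩ := hs m z hz hzy
  obtain ⟨t, ht, ht'⟩ := Proximal_ge hp (g + m) N
  obtain ⟨x, h1, h2, h3⟩ := hg t
  refine ⟨x, by omega, fun i hi => ?_, fun i hi => (h3 i hi).2⟩
  have h4 := ht' (x - t + i) (by omega)
  have h5 : t + (x - t + i) = x + i := by omega
  rw [h5] at h4
  rw [← h4]
  exact (h3 i hi).1

theorem FS_of_HypM {c : ℕ → Fin k} {M : Set (ℕ → Fin k)} {h : ℕ → ℕ} {y : ℕ → Fin k}
    (hM : IsClosed M) (hy : y ∈ M) (H : HypM c M h y) : y ∈ FS c M h := by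
  refine ⟨hy, fun m N => ?_⟩
  -- the points of `M` in the cylinder
  let K : Set (ℕ → Fin k) := M ∩ {z | ∀ i < h m, z i = y i}
  have hcl : IsClosed {z : ℕ → Fin k | ∀ i < h m, z i = y i} := by
    have : {z : ℕ → Fin k | ∀ i < h m, z i = y i} =
        ⋂ i : ℕ, ⋂ _ : i < h m, {z | z i = y i} := by
      ext z; simp
    rw [this]
    exact isClosed_iInter fun i => isClosed_iInter fun _ =>
      isClosed_eq (continuous_apply _) continuous_const
  have hop : ∀ x : ℕ, IsOpen {z : ℕ → Fin k | ∀ i < m, z (x + i) = y i} := by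
    intro x
    have : {z : ℕ → Fin k | ∀ i < m, z (x + i) = y i} =
        ⋂ i ∈ Finset.range m, {z | z (x + i) = y i} := by
      ext z; simp
    rw [this]
    refine isOpen_biInter_finset fun i _ => ?_
    have hc : Continuous fun z : ℕ → Fin k => z (x + i) := continuous_apply (x + i)
    exact (isOpen_discrete ({y i} : Set (Fin k))).preimage hc
  have hK : IsCompact K := (hM.inter hcl).isCompact
  obtain ⟨t, ht⟩ := hK.elim_finite_subcover
    (fun x : {x : ℕ // N ≤ x ∧ ∀ i < m, c (x + i) = y i} =>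
      {z : ℕ → Fin k | ∀ i < m, z (x.1 + i) = y i}) (fun x => hop x.1) (by
      rintro z ⟨hz, hzy⟩
      obtain ⟨x, hx, h1, h2⟩ := H m z hz hzy N
      rw [Set.mem_iUnion]
      exact ⟨⟨x, hx, h1⟩, h2⟩)
  refine ⟨(t.sup fun x => x.1) + m + h m, by omega, fun z hz hzy => ?_⟩
  have := ht ⟨hz, hzy⟩
  rw [Set.mem_iUnion₂] at this
  obtain ⟨x, hxt, hx⟩ := this
  have h1 : x.1 ≤ t.sup fun x => x.1 := Finset.le_sup (f := fun x => x.1) hxt
  exact ⟨x.1, x.2.1, by omega, x.2.2, hx⟩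

/-- the points that are lexicographically minimal up to `n` -/
def Lx (F : Set (ℕ → Fin k)) : ℕ → Set (ℕ → Fin k)
  | 0 => F
  | n + 1 => {z | z ∈ Lx F n ∧ ∀ z' ∈ Lx F n, z n ≤ z' n}

theorem Lx_nonempty {F : Set (ℕ → Fin k)} (hF : F.Nonempty) (n : ℕ) : (Lx F n).Nonempty := by
  induction n with
  | zero => exact hF
  | succ n ih =>
    obtain ⟨z, hz, hz'⟩ := Set.exists_min_image ((fun z : ℕ → Fin k => z n) '' Lx F n) id
      (Set.toFinite _) (ih.image _)
    obtain ⟨w, hw, rfl⟩ := hz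
    exact ⟨w, hw, fun z' hz'' => hz' _ ⟨z', hz'', rfl⟩⟩

theorem Lx_anti {F : Set (ℕ → Fin k)} {n m : ℕ} (h : n ≤ m) : Lx F m ⊆ Lx F n := by
  induction h with
  | refl => exact le_refl _
  | step _ ih => exact fun z hz => ih hz.1

theorem exists_lexmin {F : Set (ℕ → Fin k)} (hF : F.Nonempty) :
    ∃ y : ℕ → Fin k, (∀ n, ∃ z ∈ F, ∀ i < n, z i = y i) ∧
      ∀ z ∈ F, ∀ n, (∀ i < n, z i = y i) → y n ≤ z n := by
  choose a ha using fun n => Lx_nonempty hF n
  have h1 : ∀ n, ∀ z ∈ Lx F n, ∀ i < n, z i = a (i + 1) i := by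
    intro n z hz i hi
    have hz' : z ∈ Lx F (i + 1) := Lx_anti (by omega) hz
    exact le_antisymm (hz'.2 _ (ha (i + 1)).1) ((ha (i + 1)).2 _ hz'.1)
  refine ⟨fun n => a (n + 1) n, fun n => ⟨a n, Lx_anti (Nat.zero_le n) (ha n), h1 n _ (ha n)⟩,
    fun z hz n hn => ?_⟩
  have h2 : ∀ i ≤ n, z ∈ Lx F i := by
    intro i hi
    induction i with
    | zero => exact hz
    | succ i ih =>
      refine ⟨ih (by omega), fun z' hz' => ?_⟩
      have h3 : z i = a (i + 1) i := hn i (by omega)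
      rw [h3]
      exact (ha (i + 1)).2 _ hz'
  exact (ha (n + 1)).2 _ (h2 n le_rfl)

theorem FS_closed {c : ℕ → Fin k} {M : Set (ℕ → Fin k)} {h : ℕ → ℕ} (hm : ∀ m, m ≤ h m)
    (hM : IsClosed M) {y : ℕ → Fin k}
    (H : ∀ n, ∃ z ∈ FS c M h, ∀ i < n, z i = y i) : y ∈ FS c M h := by
  choose a ha hay using H
  constructor
  · have ht : Filter.Tendsto a Filter.atTop (nhds y) := by
      rw [tendsto_pi_nhds]
      intro i
      refine tendsto_const_nhds.congr' ?_
      filter_upwards [Filter.eventually_gt_atTop i] with n hn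
      exact (hay n i hn).symm
    exact hM.mem_of_tendsto ht (Filter.Eventually.of_forall fun n => (ha n).1)
  · intro m
    exact Gd_congr hm (hay (h m)) ((ha (h m)).2 m)

/-! ### The solution -/

/-- `y` is a solution point -/
def Sol (c y : ℕ → Fin k) : Prop :=
  ∀ m N, ∃ x, N ≤ x ∧ (∀ i < m, c (x + i) = y i) ∧ ∀ i < m, y (x + i) = y i

theorem Sol_of_FS {c : ℕ → Fin k} {M : Set (ℕ → Fin k)} {h : ℕ → ℕ} {y : ℕ → Fin k}
    (hy : y ∈ FS c M h) : Sol c y := by
  intro m N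
  obtain ⟨B, -, H⟩ := hy.2 m N
  obtain ⟨x, h1, -, h3, h4⟩ := H y hy.1 fun _ _ => rfl
  exact ⟨x, h1, h3, h4⟩

/-- The condition for `n` to be added when the sum of the previous elements is `s`. -/
def KK (c y : ℕ → Fin k) (s n : ℕ) : Prop :=
  s < n ∧ ∀ i < s + 1, c (n + i) = y i ∧ y (n + i) = y i

open Classical in
/-- The sum of the elements below `n`. -/
noncomputable def ss (c y : ℕ → Fin k) : ℕ → ℕ
  | 0 => 0
  | n + 1 => if KK c y (ss c y n) n then ss c y n + n else ss c y n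

open Classical in
theorem ss_succ (c y : ℕ → Fin k) (n : ℕ) :
    ss c y (n + 1) = if KK c y (ss c y n) n then ss c y n + n else ss c y n := rfl

/-- the solution -/
def XX (c y : ℕ → Fin k) : Set ℕ := {n | KK c y (ss c y n) n}

theorem XX_infinite {c y : ℕ → Fin k} (h : Sol c y) : (XX c y).Infinite := by
  rw [Set.infinite_iff_exists_gt]
  by_contra hc
  push Not at hc
  obtain ⟨a, ha⟩ := hc
  have h1 : ∀ n, ss c y (a + 1 + n) = ss c y (a + 1) := by
    intro n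
    induction n with
    | zero => rfl
    | succ n ih =>
      have h2 : ¬ KK c y (ss c y (a + 1 + n)) (a + 1 + n) := fun h3 => by
        have := ha (a + 1 + n) h3
        omega
      rw [← Nat.add_assoc, ss_succ, if_neg h2, ih]
  obtain ⟨x, hx, h3, h4⟩ := h (ss c y (a + 1) + 1) (a + 1 + ss c y (a + 1) + 1)
  obtain ⟨d, rfl⟩ : ∃ d, x = a + 1 + d := ⟨x - (a + 1), by omega⟩
  have h5 : a + 1 + d ∈ XX c y := by
    show KK c y (ss c y (a + 1 + d)) (a + 1 + d)
    rw [h1 d]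
    exact ⟨by omega, fun i hi => ⟨h3 i hi, h4 i hi⟩⟩
  have := ha _ h5
  omega

theorem XX_sum {c y : ℕ → Fin k} (n : ℕ) : ∀ F : Finset ℕ, (∀ x ∈ F, x ∈ XX c y ∧ x < n) →
    ∑ x ∈ F, x ≤ ss c y n ∧ y (∑ x ∈ F, x) = y 0 ∧ (F.Nonempty → c (∑ x ∈ F, x) = y 0) := by
  induction n with
  | zero =>
    intro F hF
    have : F = ∅ := by
      rw [Finset.eq_empty_iff_forall_notMem]
      intro x hx
      have := (hF x hx).2
      omega
    subst this
    simp
  | succ n ih =>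
    intro F hF
    by_cases hn : n ∈ F
    · have hK : KK c y (ss c y n) n := (hF n hn).1
      obtain ⟨h1, h2, -⟩ := ih (F.erase n) (by
        intro x hx
        rw [Finset.mem_erase] at hx
        have := (hF x hx.2).2
        exact ⟨(hF x hx.2).1, by omega⟩)
      have hs : ∑ x ∈ F, x = n + ∑ x ∈ F.erase n, x := (Finset.add_sum_erase F (fun x => x) hn).symm
      obtain ⟨h3, h4⟩ := hK.2 (∑ x ∈ F.erase n, x) (by omega)
      rw [ss_succ, if_pos hK, hs]
      exact ⟨by omega, h4.trans h2, fun _ => h3.trans h2⟩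
    · obtain ⟨h1, h2, h3⟩ := ih F (by
        intro x hx
        have h4 := (hF x hx).2
        have h5 : x ≠ n := fun h => hn (h ▸ hx)
        exact ⟨(hF x hx).1, by omega⟩)
      refine ⟨le_trans h1 ?_, h2, h3⟩
      rw [ss_succ]
      split_ifs <;> omega

theorem XX_sol {c y : ℕ → Fin k} (h : Sol c y) : (XX c y).Infinite ∧ (∀ x ∈ XX c y, 0 < x) ∧
    ∃ i, ∀ F : Finset ℕ, F.Nonempty → (↑F : Set ℕ) ⊆ XX c y → c (∑ x ∈ F, x) = i := by
  refine ⟨XX_infinite h, fun x hx => ?_, y 0, fun F hF hFX => ?_⟩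
  · have := hx.1
    omega
  · exact (XX_sum (F.sup id + 1) F fun x hx =>
      ⟨hFX hx, Nat.lt_succ_of_le (Finset.le_sup (f := id) hx)⟩).2.2 hF

end Pool.Agent.Work.MP_69fea5_lc.PD
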