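import Mathlib

set_option autoImplicit false

/-!
# Definitions for Theorem PD (a distal point proximal to the colouring)
-/

namespace Pool.Agent.Work.MP_69fea5_lc.PD

/-- `z` and `w` agree on arbitrarily long intervals (they are proximal for the shift). -/
def Proximal {k : ℕ} (z w : ℕ → Fin k) : Prop := ∀ l, ∃ x, ∀ i < l, z (x + i) = w (x + i)

/-- A minimal subshift: a nonempty closed shift invariant set that contains no smaller one. -/
structure MinimalSubshift {k : ℕ} (M : Set (ℕ → Fin k)) : Prop where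
  nonempty : M.Nonempty
  closed : IsClosed M
  shift : ∀ z ∈ M, (fun n => z (n + 1)) ∈ M
  minimal : ∀ N ⊆ M, N.Nonempty → IsClosed N → (∀ z ∈ N, (fun n => z (n + 1)) ∈ N) → N = M

/-- The dynamical hypothesis in elementary form. -/
def HypH {k : ℕ} (c : ℕ → Fin k) (M : Set (ℕ → Fin k)) (y : ℕ → Fin k) : Prop :=
  ∀ z ∈ M, ∀ l N, ∃ x, N ≤ x ∧ (∀ i < l, c (x + i) = y i) ∧ ∀ i < l, z (x + i) = z i

/-- DYN: a point of a minimal subshift `M` that is proximal to `c` and to no other point of `M`
satisfies `HypH`. -/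
def StDyn : Prop := ∀ (k : ℕ) (c : ℕ → Fin k) (M : Set (ℕ → Fin k)), MinimalSubshift M →
  ∀ y ∈ M, Proximal y c → (∀ z ∈ M, Proximal y z → z = y) → HypH c M y

end Pool.Agent.Work.MP_69fea5_lc.PD
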