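import Pool.Agent.Work.MP_69fea5_lc.PD.Comb
import Pool.Agent.Work.MP_69fea5_lc.PD.Calc

set_option autoImplicit false

/-!
# Extendible words, arithmetical form
-/

namespace Pool.Agent.Work.MP_69fea5_lc.PD

open Pool.Agent.Work.MP_69fea5_lc

variable {k : ℕ}

/-! ### Words as numbers -/

/-- the `i`-th digit -/
def dig (k w i : ℕ) : ℕ := w / k ^ i % k

/-- the number with the digits `z 0, ..., z (l - 1)` -/
def num (k : ℕ) (z : ℕ → Fin k) : ℕ → ℕ
  | 0 => 0
  | l + 1 => num k z l + z l * k ^ l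

theorem num_lt (z : ℕ → Fin k) (l : ℕ) : num k z l < k ^ l := by
  induction l with
  | zero => simp [num]
  | succ l ih =>
    have h1 : (z l : ℕ) + 1 ≤ k := (z l).2
    have h2 : ((z l : ℕ) + 1) * k ^ l ≤ k * k ^ l := Nat.mul_le_mul_right _ h1
    show num k z l + z l * k ^ l < k ^ (l + 1)
    rw [pow_succ']
    calc num k z l + z l * k ^ l < k ^ l + z l * k ^ l := by omega
      _ = ((z l : ℕ) + 1) * k ^ l := by ring
      _ ≤ k * k ^ l := h2

theorem dig_num (z : ℕ → Fin k) {l i : ℕ} (h : i < l) : dig k (num k z l) i = z i := by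
  have hk : 0 < k := lt_of_le_of_lt (Nat.zero_le _) (z 0).2
  induction l with
  | zero => omega
  | succ l ih =>
    show (num k z l + z l * k ^ l) / k ^ i % k = z i
    by_cases hi : i = l
    · subst hi
      rw [Nat.add_mul_div_right _ _ (pow_pos hk i), Nat.div_eq_of_lt (num_lt z i), Nat.zero_add,
        Nat.mod_eq_of_lt (z i).2]
    · have h1 : i < l := by omega
      obtain ⟨d, rfl⟩ : ∃ d, l = i + 1 + d := ⟨l - (i + 1), by omega⟩
      have h2 : (z (i + 1 + d) : ℕ) * k ^ (i + 1 + d) = (z (i + 1 + d) * k ^ d * k) * k ^ i := by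
        rw [pow_add, pow_succ]; ring
      rw [h2, Nat.add_mul_div_right _ _ (pow_pos hk i), Nat.add_mul_mod_self_right]
      exact ih h1

/-- the function with the digits of `w` -/
def fdig (hk : 0 < k) (w : ℕ) : ℕ → Fin k := fun i => ⟨dig k w i, Nat.mod_lt _ hk⟩

/-- the word is in the language -/
def Lk (M : Set (ℕ → Fin k)) (l v : ℕ) : Prop := ∃ z ∈ M, ∀ i < l, (z i : ℕ) = dig k v i

/-- bounded form of `Gd` for `N` -/
def Th (c : ℕ → Fin k) (M : Set (ℕ → Fin k)) (h : ℕ → ℕ) (m q N b : ℕ) : Prop :=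
  ∃ B < b + 1, h m ≤ B ∧ ∀ v < k ^ B, Lk M B v → (∀ i < B, i < h m → dig k v i = dig k q i) →
    ∃ x < b + 1, (N ≤ x ∧ x + m ≤ B) ∧ (∀ i < m, (c (x + i) : ℕ) = dig k q i) ∧
      ∀ i < m, dig k v (x + i) = dig k q i

/-- the matrix of `Ext` -/
def Mx (c : ℕ → Fin k) (M : Set (ℕ → Fin k)) (h : ℕ → ℕ) (l w n b : ℕ) : Prop :=
  ∃ q < k ^ (l + n), (∀ i < l, dig k q i = dig k w i) ∧ Lk M (l + n) q ∧
    ∀ m < l + n + 1, h m ≤ l + n → ∀ N < n + 1, Th c M h m q N b

/-- the word can be extended to a good point -/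
def Ext (c : ℕ → Fin k) (M : Set (ℕ → Fin k)) (h : ℕ → ℕ) (l w : ℕ) : Prop :=
  ∀ n, ∃ b, Mx c M h l w n b

theorem Th_mono {c : ℕ → Fin k} {M : Set (ℕ → Fin k)} {h : ℕ → ℕ} {m q N b b' : ℕ} (hb : b ≤ b')
    (H : Th c M h m q N b) : Th c M h m q N b' := by
  obtain ⟨B, hB, h1, h2⟩ := H
  refine ⟨B, by omega, h1, fun v hv h3 h4 => ?_⟩
  obtain ⟨x, hx, h5⟩ := h2 v hv h3 h4
  exact ⟨x, by omega, h5⟩

theorem Th_of_Gd {c : ℕ → Fin k} {M : Set (ℕ → Fin k)} {h : ℕ → ℕ} (hm : ∀ m, m ≤ h m)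
    {y : ℕ → Fin k} {m q : ℕ} (hG : Gd c M h y m) (hq : ∀ i < h m, (y i : ℕ) = dig k q i)
    (N : ℕ) : ∃ b, Th c M h m q N b := by
  obtain ⟨B, hB, H⟩ := hG N
  have hm' := hm m
  refine ⟨B, B, by omega, hB, fun v hv hL hvq => ?_⟩
  obtain ⟨z, hz, hzv⟩ := hL
  obtain ⟨x, h1, h2, h3, h4⟩ := H z hz fun i hi => by
    apply Fin.ext
    rw [hzv i (by omega), hvq i (by omega) hi, hq i hi]
  refine ⟨x, by omega, ⟨h1, h2⟩, fun i hi => ?_, fun i hi => ?_⟩
  · rw [h3 i hi, hq i (by omega)]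
  · rw [← hzv (x + i) (by omega), h4 i hi, hq i (by omega)]

theorem Gd_of_Th {c : ℕ → Fin k} {M : Set (ℕ → Fin k)} {h : ℕ → ℕ} (hm : ∀ m, m ≤ h m)
    {y : ℕ → Fin k} {m : ℕ}
    (H : ∀ N, ∃ q b, (∀ i < h m, (y i : ℕ) = dig k q i) ∧ Th c M h m q N b) :
    Gd c M h y m := by
  intro N
  have hm' := hm m
  obtain ⟨q, b, hq, B, hB, h1, h2⟩ := H N
  refine ⟨B, h1, fun z hz hzy => ?_⟩
  obtain ⟨x, hx, ⟨h3, h4⟩, h5, h6⟩ := h2 (num k z B) (num_lt z B)
    ⟨z, hz, fun i hi => (dig_num z hi).symm⟩ fun i _ hi => by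
      rw [dig_num z (by omega), hzy i hi, hq i hi]
  refine ⟨x, h3, h4, fun i hi => ?_, fun i hi => ?_⟩
  · apply Fin.ext
    rw [h5 i hi, hq i (by omega)]
  · apply Fin.ext
    rw [hq i (by omega), ← h6 i hi, dig_num z (by omega)]

theorem Ext_iff {c : ℕ → Fin k} {M : Set (ℕ → Fin k)} {h : ℕ → ℕ} (hm : ∀ m, m ≤ h m)
    (hM : IsClosed M) (l w : ℕ) :
    Ext c M h l w ↔ ∃ y ∈ FS c M h, ∀ i < l, (y i : ℕ) = dig k w i := by
  constructor
  · intro H
    have hk : 0 < k := lt_of_le_of_lt (Nat.zero_le _) (c 0).2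
    have h1 : ∀ n, ∃ b q, q < k ^ (l + n) ∧ (∀ i < l, dig k q i = dig k w i) ∧ Lk M (l + n) q ∧
        ∀ m < l + n + 1, h m ≤ l + n → ∀ N < n + 1, Th c M h m q N b := by
      intro n
      obtain ⟨b, q, hq, h2⟩ := H n
      exact ⟨b, q, hq, h2⟩
    choose b q hq hqw hL hT using h1
    choose a haM haq using hL
    obtain ⟨y, hy, φ, hφ, ht⟩ := hM.isCompact.tendsto_subseq haM
    have h2 : ∀ m N, ∃ n, m ≤ n ∧ N ≤ n ∧ ∀ i < m, a n i = y i := by
      intro m N
      have h3 : ∀ i, ∀ᶠ n in Filter.atTop, a (φ n) i = y i := by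
        intro i
        have h4 : Filter.Tendsto (fun n => a (φ n) i) Filter.atTop (nhds (y i)) :=
          (tendsto_pi_nhds.1 ht) i
        exact h4.eventually (isOpen_discrete ({y i} : Set (Fin k)) |>.mem_nhds rfl)
      have h5 : ∀ᶠ n in Filter.atTop, ∀ i < m, a (φ n) i = y i := by
        have := (Filter.eventually_all_finset (Finset.range m)).2 fun i _ => h3 i
        filter_upwards [this] with n hn i hi
        exact hn i (Finset.mem_range.2 hi)
      obtain ⟨n, h6, h7⟩ := (h5.and (Filter.eventually_ge_atTop (m + N))).exists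
      have h8 : n ≤ φ n := hφ.id_le n
      exact ⟨φ n, by omega, by omega, h6⟩
    refine ⟨y, ⟨hy, fun m => Gd_of_Th hm fun N => ?_⟩, fun i hi => ?_⟩
    · obtain ⟨n, h3, h4, h5⟩ := h2 (h m) N
      have hm' := hm m
      refine ⟨q n, b n, fun i hi => ?_, hT n m (by omega) (by omega) N (by omega)⟩
      rw [← h5 i hi, haq n i (by omega)]
    · obtain ⟨n, h3, h4, h5⟩ := h2 l 0
      rw [← h5 i hi, haq n i (by omega), hqw n i hi]
  · rintro ⟨y, hy, hyw⟩ n
    have h1 : ∀ m N, ∃ b, Th c M h m (num k y (l + n)) N b ∨ ¬ h m ≤ l + n := by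
      intro m N
      by_cases hmn : h m ≤ l + n
      · obtain ⟨b, hb⟩ := Th_of_Gd hm (hy.2 m) (q := num k y (l + n))
          (fun i hi => (dig_num y (by omega)).symm) N
        exact ⟨b, Or.inl hb⟩
      · exact ⟨0, Or.inr hmn⟩
    choose b hb using h1
    refine ⟨(Finset.range (l + n + 1)).sup fun m => (Finset.range (n + 1)).sup fun N => b m N,
      num k y (l + n), num_lt y _, fun i hi => ?_, ⟨y, hy.1, fun i hi => (dig_num y hi).symm⟩,
      fun m hmn hmn' N hN => ?_⟩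
    · rw [dig_num y (by omega), hyw i hi]
    · have h2 : b m N ≤ (Finset.range (l + n + 1)).sup fun m =>
          (Finset.range (n + 1)).sup fun N => b m N :=
        le_trans (Finset.le_sup (f := fun N => b m N) (Finset.mem_range.2 hN))
          (Finset.le_sup (f := fun m => (Finset.range (n + 1)).sup fun N => b m N)
            (Finset.mem_range.2 hmn))
      rcases hb m N with h3 | h3
      · exact Th_mono h2 h3
      · exact absurd hmn' h3

/-! ### The leftmost word -/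

/-- `q` is the leftmost extendible word of length `n`, in terms of a set `E` of extendible words -/
def Lm (k : ℕ) (E : ℕ → ℕ → Prop) (n q : ℕ) : Prop :=
  E n q ∧ ∀ q' < k ^ n, (∃ j < n, (∀ i < j, dig k q' i = dig k q i) ∧ dig k q' j < dig k q j) →
    ¬ E n q'

theorem Lm_iff {F : Set (ℕ → Fin k)} {E : ℕ → ℕ → Prop}
    (hE : ∀ l w, E l w ↔ ∃ y ∈ F, ∀ i < l, (y i : ℕ) = dig k w i) {y : ℕ → Fin k}
    (h1 : ∀ n, ∃ z ∈ F, ∀ i < n, z i = y i)
    (h2 : ∀ z ∈ F, ∀ n, (∀ i < n, z i = y i) → y n ≤ z n) (n q : ℕ) :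
    Lm k E n q ↔ ∀ i < n, dig k q i = y i := by
  constructor
  · rintro ⟨h3, h4⟩
    by_contra hc
    push Not at hc
    -- the first difference
    have hex : ∃ i, i < n ∧ dig k q i ≠ y i := hc
    classical
    obtain ⟨hj, hjne⟩ := Nat.find_spec hex
    have hmin : ∀ i < Nat.find hex, dig k q i = y i := by
      intro i hi
      by_contra h5
      exact Nat.find_min hex hi ⟨by omega, h5⟩
    set j := Nat.find hex with hjdef
    obtain ⟨z, hz, hzq⟩ := (hE n q).1 h3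
    have h5 : y j ≤ z j := h2 z hz j fun i hi => by
      apply Fin.ext
      rw [hzq i (by omega), hmin i hi]
    have h6 : (y j : ℕ) < dig k q j := by
      have h7 : (y j : ℕ) ≤ z j := h5
      rw [hzq j hj] at h7
      exact lt_of_le_of_ne h7 (Ne.symm hjne)
    refine h4 (num k y n) (num_lt y n) ⟨j, hj, fun i hi => ?_, ?_⟩ ?_
    · rw [dig_num y (by omega), hmin i hi]
    · rw [dig_num y hj]; exact h6
    · obtain ⟨a, ha, hay⟩ := h1 n
      exact (hE n _).2 ⟨a, ha, fun i hi => by rw [dig_num y hi, hay i hi]⟩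
  · intro h3
    refine ⟨?_, ?_⟩
    · obtain ⟨a, ha, hay⟩ := h1 n
      exact (hE n _).2 ⟨a, ha, fun i hi => by rw [h3 i hi, hay i hi]⟩
    · rintro q' hq' ⟨j, hj, h4, h5⟩ h6
      obtain ⟨z, hz, hzq⟩ := (hE n q').1 h6
      have h7 : y j ≤ z j := h2 z hz j fun i hi => by
        apply Fin.ext
        rw [hzq i (by omega), h4 i hi, h3 i (by omega)]
      have h8 : (y j : ℕ) ≤ z j := h7
      rw [hzq j hj] at h8
      rw [h3 j hj] at h5
      omega

end Pool.Agent.Work.MP_69fea5_lc.PD
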