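import Pool.Agent.Work.MP_69fea5_lc.PD.Main
import Pool.Agent.Work.MP_69fea5_lc.PD.I_AE

set_option autoImplicit false

/-!
# Theorem PD: statement of the hand-in (kept under `Work` until the captain decides)
-/

namespace Pool.Agent.Work.MP_69fea5_lc.PD.Final

open Pool.Agent.Work.MP_69fea5_lc

open Classical in
/-- The characteristic function of a set of natural numbers, as an oracle or as a function to
compute. -/
noncomputable def charFun (S : Set ℕ) : ℕ →. ℕ := fun n => Part.some (if n ∈ S then 1 else 0)

/-- `X` is a solution to the instance `c` of Hindman's theorem: `X` is an infinite set of positive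
integers and `c` is constant on the set `FS(X)` of sums of finite nonempty subsets of `X`. -/
def IsSolution {k : ℕ} (c : ℕ → Fin k) (X : Set ℕ) : Prop :=
  X.Infinite ∧ (∀ x ∈ X, 0 < x) ∧
    ∃ i, ∀ F : Finset ℕ, F.Nonempty → (↑F : Set ℕ) ⊆ X → c (∑ x ∈ F, x) = i

/-- `S` is `Σ⁰₂` relative to the oracles in `O`: `n ∈ S ↔ ∃ a, ∀ b, (n, a, b) ∈ R` for some `R`
computable from finitely many oracles in `O`. -/
def IsSigmaTwoIn (O : Set (ℕ →. ℕ)) (S : Set ℕ) : Prop :=
  ∃ R : Set ℕ, RecursiveIn O (charFun R) ∧
    ∀ n, n ∈ S ↔ ∃ a, ∀ b, Nat.pair n (Nat.pair a b) ∈ R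

/-- `X` is computable from finitely many sets that are `Σ⁰₂` relative to `O`; for finite `O` this
says that `X` is computable in the second jump of the join of the oracles in `O`. -/
def ComputableInSecondJump (O : Set (ℕ →. ℕ)) (X : Set ℕ) : Prop :=
  RecursiveIn {f | ∃ S, IsSigmaTwoIn O S ∧ f = charFun S} (charFun X)

/-- The codes of the finite words that occur as prefixes of points of `M` (for a shift invariant
`M` these are the words that occur in points of `M`). -/
def language {k : ℕ} (M : Set (ℕ → Fin k)) : Set ℕ :=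
  {n | ∃ z ∈ M, ∃ l, Encodable.encode ((List.range l).map fun i => (z i : ℕ)) = n}

/-- `z` and `w` are proximal for the shift: they agree on arbitrarily long intervals. -/
def Proximal {k : ℕ} (z w : ℕ → Fin k) : Prop := ∀ l, ∃ x, ∀ i < l, z (x + i) = w (x + i)

/-- A minimal subshift: a nonempty closed shift invariant set that contains no smaller one. -/
structure MinimalSubshift {k : ℕ} (M : Set (ℕ → Fin k)) : Prop where
  nonempty : M.Nonempty
  closed : IsClosed M
  shift : ∀ z ∈ M, (fun n => z (n + 1)) ∈ M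
  minimal : ∀ N ⊆ M, N.Nonempty → IsClosed N → (∀ z ∈ N, (fun n => z (n + 1)) ∈ N) → N = M

/-- Every point of `M` is a limit of shifts `c (x + ·)`, `x → ∞`. -/
def InLimitSet {k : ℕ} (c : ℕ → Fin k) (M : Set (ℕ → Fin k)) : Prop :=
  ∀ z ∈ M, ∀ l N, ∃ x, N ≤ x ∧ ∀ i < l, c (x + i) = z i

theorem charFn_eq (S : Set ℕ) : charFn S = charFun S := rfl

theorem sigma_iff (O : Set (ℕ →. ℕ)) (S : Set ℕ) : PD.IsSigmaTwoIn O S ↔ IsSigmaTwoIn O S :=
  Iff.rfl

/-- The oracle `h = id` can be dropped. -/
theorem drop_id {k : ℕ} {c : ℕ → Fin k} {M : Set (ℕ → Fin k)} {X : Set ℕ}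
    (H : RecursiveIn (jumpTwo (oracles c M id)) (charFn X)) :
    ComputableInSecondJump {fun n => Part.some (c n : ℕ), charFun (language M)} X := by
  refine RecursiveIn.mono ?_ H
  rintro f ⟨S, ⟨R, hR, h⟩, rfl⟩
  refine ⟨S, ⟨R, ?_, h⟩, rfl⟩
  refine RecursiveIn.subst hR ?_
  rintro g (rfl | rfl | rfl)
  · exact RecursiveIn.oracle _ (Or.inl rfl)
  · exact RecursiveIn.oracle _ (Or.inr rfl)
  · exact RecursiveIn.some

/-- **Hindman's theorem along a distal point.**
(1) Let `M` be a minimal subshift in the limit set of the shifts of the colouring `c`. If `M` is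
distal (no two different points are proximal), or at least some point `y` of `M` is proximal to `c`
and to no other point of `M`, then `c` has a solution computable in the second jump of `c` and the
language of `M`.
(2) More generally let `M` be closed, let `y ∈ M` be proximal to `c`, and let `h` be a function such
that every point `z` of `M` that agrees with `y` below `h m` returns together with `y`, with bounded
gaps, to the cylinder of the first `m` values of `y`. Then `c` has a solution computable in the
second jump of `c`, `h` and the language of `M`. -/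
theorem result {k : ℕ} (c : ℕ → Fin k) (M : Set (ℕ → Fin k)) :
    (MinimalSubshift M → InLimitSet c M →
      ((∀ y ∈ M, ∀ z ∈ M, Proximal y z → y = z) ∨
        ∃ y ∈ M, Proximal y c ∧ ∀ z ∈ M, Proximal y z → y = z) →
      ∃ X, IsSolution c X ∧
        ComputableInSecondJump {fun n => Part.some (c n : ℕ), charFun (language M)} X) ∧
    (IsClosed M → ∀ y ∈ M, Proximal y c → ∀ h : ℕ → ℕ, (∀ m, m ≤ h m) →
      (∀ m, ∀ z ∈ M, (∀ i < h m, z i = y i) → ∃ g, ∀ t, ∃ x, t ≤ x ∧ x < t + g ∧
        ∀ i < m, y (x + i) = y i ∧ z (x + i) = y i) →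
      ∃ X, IsSolution c X ∧
        ComputableInSecondJump
          {fun n => Part.some (c n : ℕ), charFun (language M), fun n => Part.some (h n)} X) := by
  constructor
  · intro hM hc hy
    have hM' : PD.MinimalSubshift M := ⟨hM.nonempty, hM.closed, hM.shift, hM.minimal⟩
    obtain ⟨y, hyM, hyc, hyd⟩ : ∃ y ∈ M, Proximal y c ∧ ∀ z ∈ M, Proximal y z → y = z := by
      rcases hy with hd | hy
      · obtain ⟨y, hyM, hyc⟩ := AE_pf hM.nonempty hM.closed hM.shift hc
        exact ⟨y, hyM, hyc, hd y hyM⟩
      · exact hy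
    obtain ⟨X, hX, hr⟩ := main (fun _ => le_rfl) hM.closed hyM (HypM_of_HypH
      (I_DYN_pf k c M hM' y hyM hyc fun z hz h => (hyd z hz h).symm))
    exact ⟨X, hX, drop_id hr⟩
  · intro hM y hy hp h hm hs
    obtain ⟨X, hX, hr⟩ := main hm hM hy (HypM_of_syndetic hp hs)
    exact ⟨X, hX, hr⟩

end Pool.Agent.Work.MP_69fea5_lc.PD.Final
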