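import Pool.Agent.Work.MP_69fea5_lc.PD.Defs

set_option autoImplicit false

/-!
# The dynamical part of Theorem PD
-/

namespace Pool.Agent.Work.MP_69fea5_lc.PD

open Filter Topology

attribute [local instance] Ultrafilter.add Ultrafilter.addSemigroup

variable {k : ℕ}

theorem exists_lm (p : Ultrafilter ℕ) (z : ℕ → Fin k) (i : ℕ) :
    ∃ a, ∀ᶠ x in (p : Filter ℕ), z (x + i) = a := by
  by_contra hc
  push Not at hc
  obtain ⟨x, hx⟩ := (eventually_all.2 hc).exists
  exact hx _ rfl

/-- the limit of the shifts of `z` along `p` -/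
noncomputable def lm (p : Ultrafilter ℕ) (z : ℕ → Fin k) (i : ℕ) : Fin k :=
  (exists_lm p z i).choose

theorem lm_spec (p : Ultrafilter ℕ) (z : ℕ → Fin k) (i : ℕ) :
    ∀ᶠ x in (p : Filter ℕ), z (x + i) = lm p z i := (exists_lm p z i).choose_spec

theorem lm_eq_iff (p : Ultrafilter ℕ) (z : ℕ → Fin k) (i : ℕ) (a : Fin k) :
    lm p z i = a ↔ ∀ᶠ x in (p : Filter ℕ), z (x + i) = a := by
  constructor
  · rintro rfl
    exact lm_spec p z i
  · intro h
    obtain ⟨x, h1, h2⟩ := (h.and (lm_spec p z i)).exists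
    exact h2.symm.trans h1

theorem lm_add (p q : Ultrafilter ℕ) (z : ℕ → Fin k) : lm (p + q) z = lm p (lm q z) := by
  funext i
  rw [lm_eq_iff]
  refine (Ultrafilter.eventually_add p q _).2 ?_
  filter_upwards [lm_spec p (lm q z) i] with m hm
  filter_upwards [lm_spec q z (m + i)] with m' hm'
  rw [← hm, ← hm']
  congr 1
  omega

theorem lm_pure_one (z : ℕ → Fin k) : lm (pure 1) z = fun n => z (n + 1) := by
  funext i
  rw [lm_eq_iff]
  rw [Ultrafilter.coe_pure, eventually_pure, add_comm]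

theorem continuous_lm (z : ℕ → Fin k) : Continuous fun p : Ultrafilter ℕ => lm p z := by
  refine continuous_pi fun i => continuous_discrete_rng.2 fun a => ?_
  have : (fun p : Ultrafilter ℕ => lm p z i) ⁻¹' {a} = {p | {x | z (x + i) = a} ∈ p} := by
    ext p
    exact lm_eq_iff p z i a
  rw [this]
  exact ultrafilter_isOpen_basic _

/-- finitely many coordinates at once -/
theorem lm_spec_lt (p : Ultrafilter ℕ) (z : ℕ → Fin k) (l : ℕ) :
    ∀ᶠ x in (p : Filter ℕ), ∀ i < l, z (x + i) = lm p z i :=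
  (eventually_all_finset (Finset.range l)).2 (fun i _ => lm_spec p z i) |>.mono
    fun _ hx i hi => hx i (Finset.mem_range.2 hi)

/-- closed shift invariant sets are invariant under limits -/
theorem lm_mem {M : Set (ℕ → Fin k)} (hM : IsClosed M)
    (hT : ∀ z ∈ M, (fun n => z (n + 1)) ∈ M) (p : Ultrafilter ℕ) {z : ℕ → Fin k} (hz : z ∈ M) :
    lm p z ∈ M := by
  have hx : ∀ x, (fun n => z (x + n)) ∈ M := by
    intro x
    induction x with
    | zero => simpa using hz
    | succ x ih =>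
      have := hT _ ih
      convert this using 2
      congr 1
      omega
  rw [← hM.closure_eq]
  refine mem_closure_of_tendsto (f := fun x n => z (x + n)) (b := (p : Filter ℕ)) ?_
    (Eventually.of_forall hx)
  rw [tendsto_pi_nhds]
  intro i
  exact tendsto_const_nhds.congr' ((lm_spec p z i).mono fun x hx => hx.symm)

/-- a compact semigroup argument: an idempotent `u` with `u c = u y`, `u z = z` -/
theorem exists_idem {M : Set (ℕ → Fin k)} (hM : MinimalSubshift M) {y c z : ℕ → Fin k}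
    (hyc : Proximal y c) (hz : z ∈ M) :
    ∃ u : Ultrafilter ℕ, u + u = u ∧ (∀ N, ∀ᶠ x in (u : Filter ℕ), N ≤ x) ∧
      (∀ i, ∀ᶠ x in (u : Filter ℕ), y (x + i) = c (x + i)) ∧ lm u z = z := by
  let A : ℕ → Set ℕ := fun n => {x | n ≤ x}
  let B : ℕ → Set ℕ := fun i => {x | y (x + i) = c (x + i)}
  let L : Set (Ultrafilter ℕ) := {p | (∀ n, A n ∈ p) ∧ ∀ i, B i ∈ p}
  have hLc : IsClosed L := by
    have : L = (⋂ n, {p : Ultrafilter ℕ | A n ∈ p}) ∩ ⋂ i, {p : Ultrafilter ℕ | B i ∈ p} := by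
      ext p
      simp [L]
    rw [this]
    exact (isClosed_iInter fun n => ultrafilter_isClosed_basic _).inter
      (isClosed_iInter fun n => ultrafilter_isClosed_basic _)
  have hLl : ∀ q : Ultrafilter ℕ, ∀ p ∈ L, q + p ∈ L := by
    rintro q p ⟨h1, h2⟩
    refine ⟨fun n => ?_, fun i => ?_⟩
    · refine (Ultrafilter.eventually_add q p _).2 (Eventually.of_forall fun m => ?_)
      filter_upwards [h1 n] with x hx
      exact le_trans hx (Nat.le_add_left _ _)
    · refine (Ultrafilter.eventually_add q p _).2 (Eventually.of_forall fun m => ?_)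
      filter_upwards [h2 (m + i)] with x hx
      have e : m + x + i = x + (m + i) := by omega
      rw [e]
      exact hx
  -- `L` is not empty
  have hLn : L.Nonempty := by
    let G : ℕ → Set ℕ := fun n => {x | n ≤ x ∧ ∀ i < n, y (x + i) = c (x + i)}
    have hG : Antitone G := by
      intro a b hab x hx
      exact ⟨hab.trans hx.1, fun i hi => hx.2 i (hi.trans_le hab)⟩
    have hGn : ∀ n, (G n).Nonempty := by
      intro n
      obtain ⟨x, hx⟩ := hyc (n + n)
      refine ⟨x + n, Nat.le_add_left _ _, fun i hi => ?_⟩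
      have := hx (n + i) (by omega)
      rwa [← add_assoc] at this
    have hne : (⨅ n, 𝓟 (G n)).NeBot := by
      refine iInf_neBot_of_directed' ?_ fun n => principal_neBot_iff.2 (hGn n)
      intro a b
      exact ⟨max a b, principal_mono.2 (hG (le_max_left _ _)),
        principal_mono.2 (hG (le_max_right _ _))⟩
    refine ⟨Ultrafilter.of (⨅ n, 𝓟 (G n)), fun n => ?_, fun i => ?_⟩
    · have h1 : G n ∈ ⨅ n, 𝓟 (G n) := mem_iInf_of_mem n (mem_principal_self _)
      exact mem_of_superset (Ultrafilter.of_le _ h1) fun x hx => hx.1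
    · have h1 : G (i + 1) ∈ ⨅ n, 𝓟 (G n) := mem_iInf_of_mem (i + 1) (mem_principal_self _)
      exact mem_of_superset (Ultrafilter.of_le _ h1) fun x hx => hx.2 i (Nat.lt_succ_self i)
  -- `L z = M`
  have hLz : (fun p : Ultrafilter ℕ => lm p z) '' L = M := by
    refine hM.minimal _ ?_ (hLn.image _) (hLc.isCompact.image (continuous_lm z)).isClosed ?_
    · rintro _ ⟨p, _, rfl⟩
      exact lm_mem hM.closed hM.shift p hz
    · rintro _ ⟨p, hp, rfl⟩
      refine ⟨pure 1 + p, hLl _ p hp, ?_⟩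
      simp only
      rw [lm_add, lm_pure_one]
  obtain ⟨p0, hp0, hp0z⟩ : z ∈ (fun p : Ultrafilter ℕ => lm p z) '' L := hLz ▸ hz
  let S : Set (Ultrafilter ℕ) := L ∩ {p | lm p z = z}
  have hSc : IsClosed S := hLc.inter (isClosed_eq (continuous_lm z) continuous_const)
  obtain ⟨u, hu, huu⟩ := exists_idempotent_in_compact_add_subsemigroup
    (fun r : Ultrafilter ℕ => Ultrafilter.continuous_add_left r) S ⟨p0, hp0, hp0z⟩
    hSc.isCompact (by
      rintro p ⟨h1, h2⟩ q ⟨h3, h4⟩
      refine ⟨hLl p q h3, ?_⟩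
      simp only [Set.mem_ofPred_eq] at h2 h4 ⊢
      rw [lm_add, h4, h2])
  exact ⟨u, huu, fun N => hu.1.1 N, fun i => hu.1.2 i, hu.2⟩

theorem I_DYN_pf : StDyn := by
  intro k c M hM y hy hyc hd z hz l N
  obtain ⟨u, huu, h1, h2, h3⟩ := exists_idem hM hyc hz
  have hyM : lm u y ∈ M := lm_mem hM.closed hM.shift u hy
  have hyy : lm u y = y := by
    refine hd _ hyM fun n => ?_
    have e : lm u (lm u y) = lm u y := by rw [← lm_add, huu]
    obtain ⟨x, hx, hx'⟩ := ((lm_spec_lt u y n).and (lm_spec_lt u (lm u y) n)).exists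
    refine ⟨x, fun i hi => ?_⟩
    rw [hx i hi, hx' i hi, e]
  have hyc' : ∀ᶠ x in (u : Filter ℕ), ∀ i < l, y (x + i) = c (x + i) :=
    (eventually_all_finset (Finset.range l)).2 (fun i _ => h2 i) |>.mono
      fun _ hx i hi => hx i (Finset.mem_range.2 hi)
  obtain ⟨x, hx⟩ := ((h1 N).and (hyc'.and ((lm_spec_lt u y l).and (lm_spec_lt u z l)))).exists
  refine ⟨x, hx.1, fun i hi => ?_, fun i hi => ?_⟩
  · rw [← hx.2.1 i hi, hx.2.2.1 i hi, hyy]
  · rw [hx.2.2.2 i hi, h3]

end Pool.Agent.Work.MP_69fea5_lc.PD
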