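import Pool.Agent.Work.MP_69fea5_lc.PD.Ext

set_option autoImplicit false

/-!
# Theorem PD: computability part
-/

namespace Pool.Agent.Work.MP_69fea5_lc.PD

open Pool.Agent.Work.MP_69fea5_lc

variable {k : ℕ}

/-- The codes of the finite words that are prefixes of points of `M`. -/
def language {k : ℕ} (M : Set (ℕ → Fin k)) : Set ℕ :=
  {n | ∃ z ∈ M, ∃ l, Encodable.encode ((List.range l).map fun i => (z i : ℕ)) = n}

/-- The oracles `c`, `language M` and `h`. -/
def oracles {k : ℕ} (c : ℕ → Fin k) (M : Set (ℕ → Fin k)) (h : ℕ → ℕ) : Set (ℕ →. ℕ) :=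
  {fun n => Part.some (c n : ℕ), charFn (language M), fun n => Part.some (h n)}

/-- `S` is `Σ⁰₂` relative to the oracles in `O`. -/
def IsSigmaTwoIn (O : Set (ℕ →. ℕ)) (S : Set ℕ) : Prop :=
  ∃ R : Set ℕ, RecursiveIn O (charFn R) ∧
    ∀ n, n ∈ S ↔ ∃ a, ∀ b, Nat.pair n (Nat.pair a b) ∈ R

/-- The characteristic functions of the sets that are `Σ⁰₂` relative to `O`. -/
def jumpTwo (O : Set (ℕ →. ℕ)) : Set (ℕ →. ℕ) := {f | ∃ S, IsSigmaTwoIn O S ∧ f = charFn S}

/-! ### primitive recursive functions -/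

theorem pow_prim (k : ℕ) : Primrec fun i : ℕ => k ^ i := by
  have h : Primrec (Nat.rec 1 fun _ r => r * k : ℕ → ℕ) :=
    Primrec.nat_rec₁ 1 (Primrec.nat_mul.comp Primrec.snd (Primrec.const k))
  refine h.of_eq fun n => ?_
  induction n with
  | zero => rfl
  | succ n ih => rw [pow_succ, ← ih]

theorem dig_prim (k : ℕ) : Primrec₂ fun v i : ℕ => dig k v i :=
  Primrec.nat_mod.comp (Primrec.nat_div.comp Primrec.fst ((pow_prim k).comp Primrec.snd))
    (Primrec.const k)

/-- the code of a word -/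
def code (k l v : ℕ) : ℕ := Encodable.encode ((List.range l).map fun i => dig k v i)

theorem code_prim (k : ℕ) : Primrec₂ fun l v : ℕ => code k l v :=
  Primrec.encode.comp (Primrec.list_map (Primrec.list_range.comp Primrec.fst)
    ((dig_prim k).comp (Primrec.snd.comp Primrec.fst) Primrec.snd))

theorem Lk_iff (M : Set (ℕ → Fin k)) (l v : ℕ) : Lk M l v ↔ code k l v ∈ language M := by
  constructor
  · rintro ⟨z, hz, h⟩
    refine ⟨z, hz, l, ?_⟩
    unfold code
    congr 1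
    exact List.map_congr_left fun i hi => h i (List.mem_range.1 hi)
  · rintro ⟨z, hz, l', h⟩
    have h1 := Encodable.encode_injective h
    have h2 : l' = l := by simpa using congrArg List.length h1
    subst h2
    refine ⟨z, hz, fun i hi => ?_⟩
    have h3 : i ∈ List.range l' := List.mem_range.2 hi
    exact (List.map_inj_left.1 h1) i h3

section RPS

variable {g : ℕ → ℕ} {α : Type*} [Primcodable α]

theorem RP.le {f e : α → ℕ} (hf : Primrec f) (he : Primrec e) : RP g fun a => f a ≤ e a :=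
  RP.prim (Primrec.nat_le.comp hf he)

theorem RP.lt {f e : α → ℕ} (hf : Primrec f) (he : Primrec e) : RP g fun a => f a < e a :=
  RP.prim (Primrec.nat_lt.comp hf he)

theorem RP.eq {f e : α → ℕ} (hf : Primrec f) (he : Primrec e) : RP g fun a => f a = e a :=
  RP.prim (Primrec.eq.comp hf he)

/-- equality of the digits below `m` -/
theorem RP.digs {m p q x : α → ℕ} (hm : Primrec m) (hp : Primrec p) (hq : Primrec q)
    (hx : Primrec x) : RP g fun a => ∀ i < m a, dig k (p a) (x a + i) = dig k (q a) i := by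
  refine RP.ball (p := fun i a => dig k (p a) (x a + i) = dig k (q a) i) ?_ hm
  exact RP.eq ((dig_prim k).comp (hp.comp Primrec.snd)
    (Primrec.nat_add.comp (hx.comp Primrec.snd) Primrec.fst))
    ((dig_prim k).comp (hq.comp Primrec.snd) Primrec.fst)

theorem RP.digs0 {m p q : α → ℕ} (hm : Primrec m) (hp : Primrec p) (hq : Primrec q) :
    RP g fun a => ∀ i < m a, dig k (p a) i = dig k (q a) i := by
  refine RP.ball (p := fun i a => dig k (p a) i = dig k (q a) i) ?_ hm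
  exact RP.eq ((dig_prim k).comp (hp.comp Primrec.snd) Primrec.fst)
    ((dig_prim k).comp (hq.comp Primrec.snd) Primrec.fst)

end RPS

/-! ### the first level -/

open Classical in
/-- the oracle function of level 0 -/
noncomputable def g0 (c : ℕ → Fin k) (M : Set (ℕ → Fin k)) (h : ℕ → ℕ) (n : ℕ) : ℕ :=
  Nat.pair (c n) (Nat.pair (if n ∈ language M then 1 else 0) (h n))

theorem g0_rec (c : ℕ → Fin k) (M : Set (ℕ → Fin k)) (h : ℕ → ℕ) :
    Nat.RecursiveIn (oracles c M h) fun n => Part.some (g0 c M h n) := by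
  classical
  have h1 : Nat.RecursiveIn (oracles c M h) fun n => Part.some ((c n : ℕ)) :=
    .oracle _ (Or.inl rfl)
  have h2 : Nat.RecursiveIn (oracles c M h)
      fun n => Part.some ((if n ∈ language M then 1 else 0 : ℕ)) := by
    refine (Nat.RecursiveIn.oracle (charFn (language M)) (Or.inr (Or.inl rfl))).of_eq
      fun n => ?_
    simp [charFn]
  have h3 : Nat.RecursiveIn (oracles c M h) fun n => Part.some (h n) :=
    .oracle _ (Or.inr (Or.inr rfl))
  exact pair_tot h1 (pair_tot h2 h3)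

section level0

variable {c : ℕ → Fin k} {M : Set (ℕ → Fin k)} {h : ℕ → ℕ} {α : Type*} [Primcodable α]

theorem RP.Lk {l v : α → ℕ} (hl : Primrec l) (hv : Primrec v) :
    RP (g0 c M h) fun a => PD.Lk M (l a) (v a) := by
  refine (RP.oracle (g := g0 c M h) (q := fun _ x => x.unpair.2.unpair.1 = 1) ?_
    ((code_prim k).comp hl hv)).congr fun a => ?_
  · exact Primrec.eq.comp (Primrec.fst.comp (Primrec.unpair.comp (Primrec.snd.comp
      (Primrec.unpair.comp Primrec.snd)))) (Primrec.const 1)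
  · rw [Lk_iff]
    simp only [g0, Nat.unpair_pair]
    by_cases h : code k (l a) (v a) ∈ language M <;> simp [h]

/-- comparisons with values of the modulus -/
theorem RP.hle {f e : α → ℕ} (hf : Primrec f) (he : Primrec e) :
    RP (g0 c M h) fun a => h (f a) ≤ e a := by
  refine (RP.oracle (g := g0 c M h) (q := fun a x => x.unpair.2.unpair.2 ≤ e a) ?_ hf).congr
    fun a => ?_
  · exact Primrec.nat_le.comp (Primrec.snd.comp (Primrec.unpair.comp (Primrec.snd.comp
      (Primrec.unpair.comp Primrec.snd)))) (he.comp Primrec.fst)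
  · simp only [g0, Nat.unpair_pair]

theorem RP.hgt {f e : α → ℕ} (hf : Primrec f) (he : Primrec e) :
    RP (g0 c M h) fun a => e a < h (f a) :=
  (RP.hle hf he).not.congr fun a => by simp

theorem RP.col {f e : α → ℕ} (hf : Primrec f) (he : Primrec e) :
    RP (g0 c M h) fun a => (c (f a) : ℕ) = e a := by
  refine (RP.oracle (g := g0 c M h) (q := fun a x => x.unpair.1 = e a) ?_ hf).congr fun a => ?_
  · exact Primrec.eq.comp (Primrec.fst.comp (Primrec.unpair.comp Primrec.snd))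
      (he.comp Primrec.fst)
  · simp only [g0, Nat.unpair_pair]

theorem RP.Th {m q N b : α → ℕ} (hm : Primrec m) (hq : Primrec q) (hN : Primrec N)
    (hb : Primrec b) : RP (g0 c M h) fun a => PD.Th c M h (m a) (q a) (N a) (b a) := by
  unfold PD.Th
  refine RP.bex (p := fun B a => h (m a) ≤ B ∧ ∀ v < k ^ B, PD.Lk M B v →
    (∀ i < B, i < h (m a) → dig k v i = dig k (q a) i) →
    ∃ x < b a + 1, (N a ≤ x ∧ x + m a ≤ B) ∧ (∀ i < m a, (c (x + i) : ℕ) = dig k (q a) i) ∧
      ∀ i < m a, dig k v (x + i) = dig k (q a) i) ?_ (Primrec.succ.comp hb)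
  refine (RP.hle (hm.comp Primrec.snd) Primrec.fst).and ?_
  refine RP.ball (α := ℕ × α) (p := fun v y => PD.Lk M y.1 v →
    (∀ i < y.1, i < h (m y.2) → dig k v i = dig k (q y.2) i) →
    ∃ x < b y.2 + 1, (N y.2 ≤ x ∧ x + m y.2 ≤ y.1) ∧
      (∀ i < m y.2, (c (x + i) : ℕ) = dig k (q y.2) i) ∧
      ∀ i < m y.2, dig k v (x + i) = dig k (q y.2) i) ?_ ((pow_prim k).comp Primrec.fst)
  refine (RP.Lk (Primrec.fst.comp Primrec.snd) Primrec.fst).imp (RP.imp ?_ ?_)
  · refine RP.ball (α := ℕ × ℕ × α) (p := fun i y => i < h (m y.2.2) →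
      dig k y.1 i = dig k (q y.2.2) i) ?_ (Primrec.fst.comp Primrec.snd)
    have h3 : Primrec fun x : ℕ × ℕ × ℕ × α => x.2.2.2 :=
      Primrec.snd.comp (Primrec.snd.comp Primrec.snd)
    refine (RP.hgt (hm.comp h3) Primrec.fst).imp (RP.eq ?_ ?_)
    · exact (dig_prim k).comp (Primrec.fst.comp Primrec.snd) Primrec.fst
    · exact (dig_prim k).comp (hq.comp h3) Primrec.fst
  refine RP.bex (α := ℕ × ℕ × α) (p := fun x y => (N y.2.2 ≤ x ∧ x + m y.2.2 ≤ y.2.1) ∧
      (∀ i < m y.2.2, (c (x + i) : ℕ) = dig k (q y.2.2) i) ∧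
      ∀ i < m y.2.2, dig k y.1 (x + i) = dig k (q y.2.2) i) ?_
      (Primrec.succ.comp (hb.comp (Primrec.snd.comp Primrec.snd)))
  have h3 : Primrec fun x : ℕ × ℕ × ℕ × α => x.2.2.2 :=
    Primrec.snd.comp (Primrec.snd.comp Primrec.snd)
  refine RP.and (RP.and (RP.le (hN.comp h3) Primrec.fst)
    (RP.le (Primrec.nat_add.comp Primrec.fst (hm.comp h3))
      (Primrec.fst.comp (Primrec.snd.comp Primrec.snd)))) (RP.and ?_ ?_)
  · refine RP.ball (α := ℕ × ℕ × ℕ × α)
      (p := fun i y => (c (y.1 + i) : ℕ) = dig k (q y.2.2.2) i) ?_ (hm.comp h3)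
    exact RP.col (Primrec.nat_add.comp (Primrec.fst.comp Primrec.snd) Primrec.fst)
      ((dig_prim k).comp (hq.comp (h3.comp Primrec.snd)) Primrec.fst)
  · exact RP.digs (hm.comp h3) (Primrec.fst.comp Primrec.snd) (hq.comp h3) Primrec.fst

theorem RP.Mx {l w n b : α → ℕ} (hl : Primrec l) (hw : Primrec w) (hn : Primrec n)
    (hb : Primrec b) : RP (g0 c M h) fun a => PD.Mx c M h (l a) (w a) (n a) (b a) := by
  unfold PD.Mx
  refine RP.bex (p := fun q a => (∀ i < l a, dig k q i = dig k (w a) i) ∧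
    PD.Lk M (l a + n a) q ∧ ∀ m < l a + n a + 1, h m ≤ l a + n a → ∀ N < n a + 1,
      PD.Th c M h m q N (b a)) ?_ ((pow_prim k).comp (Primrec.nat_add.comp hl hn))
  have hln : Primrec fun a => l a + n a := Primrec.nat_add.comp hl hn
  refine (RP.digs0 (hl.comp Primrec.snd) Primrec.fst (hw.comp Primrec.snd)).and
    ((RP.Lk (hln.comp Primrec.snd) Primrec.fst).and ?_)
  refine RP.ball (α := ℕ × α) (p := fun m y => h m ≤ l y.2 + n y.2 → ∀ N < n y.2 + 1,
    PD.Th c M h m y.1 N (b y.2)) ?_ (Primrec.succ.comp (hln.comp Primrec.snd))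
  refine (RP.hle Primrec.fst (hln.comp (Primrec.snd.comp Primrec.snd))).imp ?_
  refine RP.ball (α := ℕ × ℕ × α) (p := fun N y => PD.Th c M h y.1 y.2.1 N (b y.2.2)) ?_
    (Primrec.succ.comp (hn.comp (Primrec.snd.comp Primrec.snd)))
  exact RP.Th (Primrec.fst.comp Primrec.snd) (Primrec.fst.comp (Primrec.snd.comp Primrec.snd))
    Primrec.fst (hb.comp (Primrec.snd.comp (Primrec.snd.comp Primrec.snd)))

end level0

theorem sigmaTwo_Ext (c : ℕ → Fin k) (M : Set (ℕ → Fin k)) (h : ℕ → ℕ) :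
    IsSigmaTwoIn (oracles c M h) {n | ¬ Ext c M h n.unpair.1 n.unpair.2} := by
  refine ⟨{p | ¬ Mx c M h p.unpair.1.unpair.1 p.unpair.1.unpair.2 p.unpair.2.unpair.1
    p.unpair.2.unpair.2}, RecursiveIn.iff_nat.2 (RP.recNat (RP.not (RP.Mx ?_ ?_ ?_ ?_))
      (g0_rec c M h)), fun n => ?_⟩
  · exact Primrec.fst.comp (Primrec.unpair.comp (Primrec.fst.comp Primrec.unpair))
  · exact Primrec.snd.comp (Primrec.unpair.comp (Primrec.fst.comp Primrec.unpair))
  · exact Primrec.fst.comp (Primrec.unpair.comp (Primrec.snd.comp Primrec.unpair))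
  · exact Primrec.snd.comp (Primrec.unpair.comp (Primrec.snd.comp Primrec.unpair))
  · simp only [Ext, Set.mem_ofPred_eq, Nat.unpair_pair]
    push Not
    rfl

theorem sigmaTwo_col (c : ℕ → Fin k) (M : Set (ℕ → Fin k)) (h : ℕ → ℕ) :
    IsSigmaTwoIn (oracles c M h) {n | (c n.unpair.1 : ℕ) = n.unpair.2} := by
  refine ⟨{p | (c p.unpair.1.unpair.1 : ℕ) = p.unpair.1.unpair.2},
    RecursiveIn.iff_nat.2 (RP.recNat (RP.col ?_ ?_) (g0_rec c M h)), fun n => ?_⟩
  · exact Primrec.fst.comp (Primrec.unpair.comp (Primrec.fst.comp Primrec.unpair))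
  · exact Primrec.snd.comp (Primrec.unpair.comp (Primrec.fst.comp Primrec.unpair))
  · simp only [Set.mem_ofPred_eq, Nat.unpair_pair]
    exact ⟨fun h => ⟨0, fun _ => h⟩, fun ⟨_, h⟩ => h 0⟩

/-! ### the second level -/

open Classical in
/-- a pair of sets as an oracle function -/
noncomputable def g1 (S C : Set ℕ) (n : ℕ) : ℕ :=
  Nat.pair (if n ∈ S then 1 else 0) (if n ∈ C then 1 else 0)

theorem g1_rec {O : Set (ℕ →. ℕ)} {S C : Set ℕ} (hS : Nat.RecursiveIn O (charFn S))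
    (hC : Nat.RecursiveIn O (charFn C)) : Nat.RecursiveIn O fun n => Part.some (g1 S C n) := by
  classical
  have h1 : Nat.RecursiveIn O fun n => Part.some ((if n ∈ S then 1 else 0 : ℕ)) :=
    hS.of_eq fun n => by simp [charFn]
  have h2 : Nat.RecursiveIn O fun n => Part.some ((if n ∈ C then 1 else 0 : ℕ)) :=
    hC.of_eq fun n => by simp [charFn]
  exact pair_tot h1 h2

section level1

variable {S C : Set ℕ} {α : Type*} [Primcodable α]

theorem RP.memS {f : α → ℕ} (hf : Primrec f) : RP (g1 S C) fun a => f a ∈ S := by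
  refine (RP.oracle (g := g1 S C) (q := fun _ x => x.unpair.1 = 1) ?_ hf).congr fun a => ?_
  · exact Primrec.eq.comp (Primrec.fst.comp (Primrec.unpair.comp Primrec.snd)) (Primrec.const 1)
  · simp only [g1, Nat.unpair_pair]
    by_cases h : f a ∈ S <;> simp [h]

theorem RP.memC {f : α → ℕ} (hf : Primrec f) : RP (g1 S C) fun a => f a ∈ C := by
  refine (RP.oracle (g := g1 S C) (q := fun _ x => x.unpair.2 = 1) ?_ hf).congr fun a => ?_
  · exact Primrec.eq.comp (Primrec.snd.comp (Primrec.unpair.comp Primrec.snd)) (Primrec.const 1)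
  · simp only [g1, Nat.unpair_pair]
    by_cases h : f a ∈ C <;> simp [h]

theorem RP.Lm {n q : α → ℕ} (hn : Primrec n) (hq : Primrec q) :
    RP (g1 S C) fun a => PD.Lm k (fun l w => ¬ Nat.pair l w ∈ S) (n a) (q a) := by
  unfold PD.Lm
  refine (RP.memS (Primrec₂.natPair.comp hn hq)).not.and ?_
  refine RP.ball (p := fun q' a => (∃ j < n a, (∀ i < j, dig k q' i = dig k (q a) i) ∧
    dig k q' j < dig k (q a) j) → ¬ ¬ Nat.pair (n a) q' ∈ S) ?_ ((pow_prim k).comp hn)
  refine RP.imp ?_ (RP.memS (Primrec₂.natPair.comp (hn.comp Primrec.snd) Primrec.fst)).not.not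
  refine RP.bex (α := ℕ × α) (p := fun j y => (∀ i < j, dig k y.1 i = dig k (q y.2) i) ∧
    dig k y.1 j < dig k (q y.2) j) ?_ (hn.comp Primrec.snd)
  refine (RP.digs0 Primrec.fst (Primrec.fst.comp Primrec.snd)
    (hq.comp (Primrec.snd.comp Primrec.snd))).and (RP.lt ?_ ?_)
  · exact (dig_prim k).comp (Primrec.fst.comp Primrec.snd) Primrec.fst
  · exact (dig_prim k).comp (hq.comp (Primrec.snd.comp Primrec.snd)) Primrec.fst

end level1

/-- the graph of the leftmost good point -/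
theorem graph_rec {O : Set (ℕ →. ℕ)} {S : Set ℕ} (hS : Nat.RecursiveIn O (charFn S))
    {y : ℕ → Fin k}
    (hy : ∀ n q, PD.Lm k (fun l w => ¬ Nat.pair l w ∈ S) n q ↔ ∀ i < n, dig k q i = y i) :
    Nat.RecursiveIn O (charFn {p | (y p.unpair.1 : ℕ) = p.unpair.2}) := by
  have h1 : RP (g1 S S) fun p : ℕ => ∃ q < k ^ (p.unpair.1 + 1),
      PD.Lm k (fun l w => ¬ Nat.pair l w ∈ S) (p.unpair.1 + 1) q ∧
        dig k q p.unpair.1 = p.unpair.2 := by
    have h2 : Primrec fun p : ℕ => p.unpair.1 := Primrec.fst.comp Primrec.unpair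
    refine RP.bex (α := ℕ) (p := fun q p => PD.Lm k (fun l w => ¬ Nat.pair l w ∈ S)
      (p.unpair.1 + 1) q ∧ dig k q p.unpair.1 = p.unpair.2) ?_
      ((pow_prim k).comp (Primrec.succ.comp h2))
    refine (RP.Lm (Primrec.succ.comp (h2.comp Primrec.snd)) Primrec.fst).and (RP.eq ?_ ?_)
    · exact (dig_prim k).comp Primrec.fst (h2.comp Primrec.snd)
    · exact Primrec.snd.comp (Primrec.unpair.comp Primrec.snd)
  refine RP.recNat (h1.congr fun p => ?_) (g1_rec hS hS)
  constructor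
  · rintro ⟨q, hq, h3, h4⟩
    rw [hy] at h3
    rw [← h4, h3 _ (by omega)]
  · intro h3
    refine ⟨num k y (p.unpair.1 + 1), num_lt y _, (hy _ _).2 fun i hi => dig_num y hi, ?_⟩
    rw [dig_num y (by omega), h3]

/-- the solution is computable from the graphs of `c` and `y` -/
theorem XX_rec {O : Set (ℕ →. ℕ)} {c y : ℕ → Fin k}
    (hc : Nat.RecursiveIn O (charFn {p | (c p.unpair.1 : ℕ) = p.unpair.2}))
    (hy : Nat.RecursiveIn O (charFn {p | (y p.unpair.1 : ℕ) = p.unpair.2})) :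
    Nat.RecursiveIn O (charFn (XX c y)) := by
  classical
  have h1 : RP (g1 {p | (c p.unpair.1 : ℕ) = p.unpair.2} {p | (y p.unpair.1 : ℕ) = p.unpair.2})
      fun p : ℕ => p.unpair.1 < p.unpair.2 ∧ ∀ i < p.unpair.1 + 1,
        (∃ v < k, Nat.pair (p.unpair.2 + i) v ∈ {p | (c p.unpair.1 : ℕ) = p.unpair.2} ∧
          Nat.pair i v ∈ {p | (y p.unpair.1 : ℕ) = p.unpair.2}) ∧
        ∃ v < k, Nat.pair (p.unpair.2 + i) v ∈ {p | (y p.unpair.1 : ℕ) = p.unpair.2} ∧
          Nat.pair i v ∈ {p | (y p.unpair.1 : ℕ) = p.unpair.2} := by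
    have f1 : Primrec fun p : ℕ => p.unpair.1 := Primrec.fst.comp Primrec.unpair
    have f2 : Primrec fun p : ℕ => p.unpair.2 := Primrec.snd.comp Primrec.unpair
    refine (RP.lt f1 f2).and ?_
    refine RP.ball (α := ℕ) (p := fun i p =>
        (∃ v < k, Nat.pair (p.unpair.2 + i) v ∈ {p | (c p.unpair.1 : ℕ) = p.unpair.2} ∧
          Nat.pair i v ∈ {p | (y p.unpair.1 : ℕ) = p.unpair.2}) ∧
        ∃ v < k, Nat.pair (p.unpair.2 + i) v ∈ {p | (y p.unpair.1 : ℕ) = p.unpair.2} ∧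
          Nat.pair i v ∈ {p | (y p.unpair.1 : ℕ) = p.unpair.2}) ?_ (Primrec.succ.comp f1)
    have h2 : Primrec fun x : ℕ × ℕ × ℕ => Nat.pair (x.2.2.unpair.2 + x.2.1) x.1 :=
      Primrec₂.natPair.comp (Primrec.nat_add.comp (f2.comp (Primrec.snd.comp Primrec.snd))
        (Primrec.fst.comp Primrec.snd)) Primrec.fst
    have h3 : Primrec fun x : ℕ × ℕ × ℕ => Nat.pair x.2.1 x.1 :=
      Primrec₂.natPair.comp (Primrec.fst.comp Primrec.snd) Primrec.fst
    refine RP.and ?_ ?_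
    · exact RP.bex (α := ℕ × ℕ) (p := fun v y' =>
        Nat.pair (y'.2.unpair.2 + y'.1) v ∈ {p | (c p.unpair.1 : ℕ) = p.unpair.2} ∧
          Nat.pair y'.1 v ∈ {p | (y p.unpair.1 : ℕ) = p.unpair.2})
        ((RP.memS h2).and (RP.memC h3)) (Primrec.const k)
    · exact RP.bex (α := ℕ × ℕ) (p := fun v y' =>
        Nat.pair (y'.2.unpair.2 + y'.1) v ∈ {p | (y p.unpair.1 : ℕ) = p.unpair.2} ∧
          Nat.pair y'.1 v ∈ {p | (y p.unpair.1 : ℕ) = p.unpair.2})
        ((RP.memC h2).and (RP.memC h3)) (Primrec.const k)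
  have h2 : RP (g1 {p | (c p.unpair.1 : ℕ) = p.unpair.2} {p | (y p.unpair.1 : ℕ) = p.unpair.2})
      fun p : ℕ => KK c y p.unpair.1 p.unpair.2 := by
    refine h1.congr fun p => ?_
    have hcy : ∀ u v : Fin k, (∃ w < k, (u : ℕ) = w ∧ (v : ℕ) = w) ↔ u = v := by
      intro u v
      constructor
      · rintro ⟨w, -, h3, h4⟩
        exact Fin.ext (h3.trans h4.symm)
      · rintro rfl
        exact ⟨u, u.2, rfl, rfl⟩
    unfold KK
    refine and_congr Iff.rfl (forall_congr' fun i => forall_congr' fun _ => ?_)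
    simp only [Set.mem_ofPred_eq, Nat.unpair_pair, hcy]
  exact rec_iter_set (K := KK c y) (RP.recNat h2 (g1_rec hc hy)) (s := ss c y) rfl
    (fun n => by rw [ss_succ])

/-- **Theorem PD, computability part.** -/
theorem main {c : ℕ → Fin k} {M : Set (ℕ → Fin k)} {h : ℕ → ℕ} (hm : ∀ m, m ≤ h m)
    (hM : IsClosed M) {y : ℕ → Fin k} (hy : y ∈ M) (H : HypM c M h y) :
    ∃ X : Set ℕ, (X.Infinite ∧ (∀ x ∈ X, 0 < x) ∧
      ∃ i, ∀ F : Finset ℕ, F.Nonempty → (↑F : Set ℕ) ⊆ X → c (∑ x ∈ F, x) = i) ∧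
      RecursiveIn (jumpTwo (oracles c M h)) (charFn X) := by
  obtain ⟨y', h1, h2⟩ := exists_lexmin ⟨y, FS_of_HypM hM hy H⟩
  have h3 : Sol c y' := Sol_of_FS (FS_closed hm hM h1)
  refine ⟨XX c y', XX_sol h3, RecursiveIn.iff_nat.2 (XX_rec ?_ (graph_rec (S :=
    {n | ¬ Ext c M h n.unpair.1 n.unpair.2}) ?_ ?_))⟩
  · exact .oracle _ ⟨_, sigmaTwo_col c M h, rfl⟩
  · exact .oracle _ ⟨_, sigmaTwo_Ext c M h, rfl⟩
  · intro n q
    refine Lm_iff (F := PD.FS c M h) (fun l w => ?_) h1 h2 n q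
    rw [← Ext_iff hm hM]
    simp

end Pool.Agent.Work.MP_69fea5_lc.PD
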